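import Pool.Agent.H41.AUG.Stmts2
import Pool.Agent.H152.AUG.Once

/-!
# Task AUG2-CNT (helper41): counting
-/

set_option autoImplicit false

namespace Pool.Agent.H411.AUG

open Pool.Agent.H41.AUG Finset

theorem cnt : S_CNT := by
  intro n m x ι _ _ f S K Sr Tr hx hSr hS hK hKS hweak hTr
  set U := unc f with hU
  -- uncovered cells of a row
  set r : Fin n → ℕ := fun y => (univ.filter fun c => (y, c) ∈ U).card with hr
  set cov : Fin n → Finset (Fin n) := fun y => univ.image fun u : ι => f u y with hcov
  have hmemU : ∀ y c, (y, c) ∈ U ↔ ∀ u, f u y ≠ c := by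
    intro y c
    simp [hU, unc]
  have hcompl : ∀ y, (univ.filter fun c => (y, c) ∈ U) = (cov y)ᶜ := by
    intro y
    ext c
    simp only [mem_filter, mem_univ, true_and, hmemU, mem_compl, hcov, mem_image]
    constructor
    · rintro h ⟨u, hu⟩
      exact h u hu
    · intro h u hu
      exact h ⟨u, hu⟩
  have hrc : ∀ y, r y + (cov y).card = n := by
    intro y
    simp only [hr]
    rw [hcompl, card_compl, Fintype.card_fin]
    have : (cov y).card ≤ n := by
      have := card_le_univ (cov y)
      rwa [Fintype.card_fin] at this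
    omega
  have hcx : ∀ y, (cov y).card ≤ x := by
    intro y
    have : (cov y).card ≤ (univ : Finset ι).card := card_image_le
    rw [card_univ, hx] at this
    exact this
  -- upper bound for the rows
  have hw : ∀ y ∈ Sr, r y ≤ ((nbr U S) \ K).card + (K.filter fun c => (y, c) ∈ U).card := by
    intro y hy
    have : (univ.filter fun c => (y, c) ∈ U) ⊆ ((nbr U S) \ K) ∪ (K.filter fun c => (y, c) ∈ U) := by
      intro c hc
      have hc' := (mem_filter.1 hc).2
      by_cases hcK : c ∈ K
      · exact mem_union_right _ (mem_filter.2 ⟨hcK, hc'⟩)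
      · refine mem_union_left _ (mem_sdiff.2 ⟨?_, hcK⟩)
        unfold nbr
        exact mem_filter.2 ⟨mem_univ _, y, hSr hy, hc'⟩
    exact (card_le_card this).trans (card_union_le _ _)
  have hsw : ∑ y ∈ Sr, (K.filter fun c => (y, c) ∈ U).card ≤ K.card := by
    have h1 : ∑ y ∈ Sr, (K.filter fun c => (y, c) ∈ U).card =
        ∑ c ∈ K, (Sr.filter fun y => (y, c) ∈ U).card := by
      simp only [card_filter]
      exact sum_comm
    rw [h1]
    calc ∑ c ∈ K, (Sr.filter fun y => (y, c) ∈ U).card ≤ ∑ _c ∈ K, 1 := sum_le_sum hweak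
      _ = K.card := by simp
  have hdiff : (((nbr U S) \ K).card : ℤ) = (Sr.card : ℤ) - m := by
    have h1 := card_sdiff_add_card_eq_card hK
    have h2 : (((nbr U S) \ K).card : ℤ) + K.card = (nbr U S).card := by exact_mod_cast h1
    have h3 : (S.card : ℤ) = (nbr U S).card + m := by exact_mod_cast hS
    have h4 : (K.card : ℤ) + Sr.card = S.card := by exact_mod_cast hKS
    linarith
  have hsum : (∑ y ∈ Sr, (r y : ℤ)) ≤ (Sr.card : ℤ) * ((Sr.card : ℤ) - m) + K.card := by
    have h1 : (∑ y ∈ Sr, (r y : ℤ)) ≤ ∑ y ∈ Sr, ((((nbr U S) \ K).card : ℤ) +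
        ((K.filter fun c => (y, c) ∈ U).card : ℤ)) :=
      sum_le_sum fun y hy => by exact_mod_cast hw y hy
    rw [sum_add_distrib, sum_const, nsmul_eq_mul, hdiff] at h1
    have h2 : (∑ y ∈ Sr, ((K.filter fun c => (y, c) ∈ U).card : ℤ)) ≤ K.card := by
      exact_mod_cast hsw
    linarith
  have hlow : (Sr.card : ℤ) * ((n : ℤ) - x) ≤ ∑ y ∈ Sr, (r y : ℤ) := by
    have h1 : ∑ _y ∈ Sr, ((n : ℤ) - x) ≤ ∑ y ∈ Sr, (r y : ℤ) := by
      refine sum_le_sum fun y _ => ?_
      have h2 := hrc y
      have h3 := hcx y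
      have h4 : (r y : ℤ) + (cov y).card = n := by exact_mod_cast h2
      have h5 : ((cov y).card : ℤ) ≤ x := by exact_mod_cast h3
      linarith
    rwa [sum_const, nsmul_eq_mul] at h1
  refine ⟨by nlinarith, ?_⟩
  -- the second claim
  have hrow : ∀ y ∈ Sr, (Tr.card : ℤ) + ((n : ℤ) - x) - r y ≤
      ((Tr.filter fun c => (univ.filter fun u => f u y = c).card = 1).card : ℤ) := by
    intro y hy
    have hsub : Tr ⊆ cov y := by
      intro c hc
      by_contra hcon
      have hcU : (y, c) ∈ U := by
        have : c ∈ (univ.filter fun c => (y, c) ∈ U) := by rw [hcompl]; exact mem_compl.2 hcon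
        exact (mem_filter.1 this).2
      refine hTr c hc ?_
      unfold nbr
      exact mem_filter.2 ⟨mem_univ _, y, hSr hy, hcU⟩
    have h := Pool.Agent.H152.AUG.once n ι f {y} (cov y) Tr hsub (by
      intro s hs c hc
      rw [mem_singleton] at hs
      subst hs
      obtain ⟨u, _, hu⟩ := mem_image.1 hc
      exact ⟨u, hu⟩)
    have h6 : (({y} ×ˢ Tr).filter fun p => (univ.filter fun u => f u p.1 = p.2).card = 1).card =
        (Tr.filter fun c => (univ.filter fun u => f u y = c).card = 1).card := by
      rw [singleton_product, filter_map, card_map]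
      rfl
    rw [h6, card_singleton] at h
    have h7 : (r y : ℤ) + (cov y).card = n := by exact_mod_cast hrc y
    have h8 : (Fintype.card ι : ℤ) = x := by exact_mod_cast hx
    rw [h8] at h
    push_cast at h
    linarith
  have hcard : (((Sr ×ˢ Tr).filter fun p => (univ.filter fun u => f u p.1 = p.2).card = 1).card : ℤ) =
      ∑ y ∈ Sr, ((Tr.filter fun c => (univ.filter fun u => f u y = c).card = 1).card : ℤ) := by
    simp only [card_filter, Nat.cast_sum]
    rw [sum_product]
  rw [hcard]
  have h9 := sum_le_sum hrow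
  rw [sum_sub_distrib, sum_const, nsmul_eq_mul] at h9
  nlinarith

end Pool.Agent.H411.AUG
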